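import Mathlib
import Pool.Agent.W529.CG.Fin

set_option autoImplicit false

/-!
# MP_34be05_nt: the Calegari-Geraghty vanishing conjecture in the lowest two degrees for GL_n

All definitions are in `Pool/Agent/W529/CG/{Base,Stm,Main,Fin}.lean`:

* `Z1 Γ W`, `B1 Γ W`, `H1 Γ W`, `H0 Γ W`: cocycles, coboundaries, first cohomology, invariants;
* `MS Γ P W`: W-valued modular symbols, i.e. functions m(x,y) on P × P, P = P^1(F), with
  m(x,y) + m(y,z) = m(x,z), m(γx,γy) = γ m(x,y) (this is H^1 with compact supports for n = 2);
* `HD Γ g`, `Ht Γ g`: the subgroup {γ ∈ Γ : gγg⁻¹ ∈ Γ} and conjugation by g from it to Γ;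
* `hecke0`, `hecke1`, `heckeMS`: the Hecke operator of the double coset Γ g Γ (for g acting
  trivially on W);
* `gi u i`: the matrix diag(1,..,1,u,..,u) with i entries u;
* `GLO`, `PC`: GL_n(O_F) and its principal congruence subgroups, inside GL_n(F);
* `IsCong b Γ`: Γ ≤ GL_n(O_F) contains the elements of determinant 1 of the principal congruence
  subgroup of level b;
* `CongrProp F n p`: normal subgroups of p-power index in such Γ are congruence subgroups;
* `RayCheb F`: elements of the commutator subgroup of Gal(L/F) are Frobenius elements at principal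
  primes with totally positive generators that are 1 modulo a given ideal;
* `Coeff`: a pair (Γ, W); `Coeff.h0`, `Coeff.h1`, `Coeff.ms`: H^0, H^1, modular symbols; `Coeff.R0`,
  `Coeff.R1`, `Coeff.Rm`: c is mapped to c by the Hecke operator of g; `NonEis`: lam and the attached irreducible ρ;
* `VanH0`, `VanH1`, `VanMS`: vanishing of the localisation at the kernel of lam.
-/

namespace Pool.Agent.Results.MP_34be05_nt.LowestDegrees

open NumberField W529.CG

/-- Let F be a number field, n ≥ 2, p a prime with the congruence subgroup property `CongrProp F n p`.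
Let (Γ_t, W_t), t in a finite set, be congruence subgroups of GL_n(O_F) with finite p-primary modules
trivial modulo b, and T a commutative ring with elements τ(π,i). For every non-Eisenstein system
(lam, ρ) the localisations at ker(lam) of the sum of the H^0(Γ_t, W_t) and of the sum of the
H^1(Γ_t, W_t) vanish, for every action of T by which τ(π,i) acts as the double coset operator of
diag(1,..,1,π,..,π) (π totally positive prime element, 1 modulo b); if n = 2 the same holds for the
modular symbols. -/
theorem result {F : Type} [Field F] [NumberField F] {n : ℕ} (hn : 2 ≤ n)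
    (p : ℕ) [Fact p.Prime] (hcsp : CongrProp F n p) (hcheb : RayCheb F)
    (b : Ideal (𝓞 F)) (hb : b ≠ ⊥) {ι : Type} [Finite ι] (D : ι → Coeff F n p b)
    {T : Type} [CommRing T] {τ : 𝓞 F → ℕ → T} (E : NonEis F n b T τ) :
    VanH0 D E ∧ VanH1 D E ∧ (n = 2 → VanMS D E) :=
  final hn p hcsp hcheb b hb D E

end Pool.Agent.Results.MP_34be05_nt.LowestDegrees
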